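import Mathlib

/-!
# A `4 × 4` integer matrix with unimodular entrywise cube and no entry in `{-1, 0, 1}`
-/

set_option autoImplicit false

namespace Pool.Agent.Results.MP_52c232_nt.OrderFour

/-- **Positive answer to Q1.** There is an integer `n ≥ 1` and an `n × n` integer matrix `A` with no
entry in `{-1, 0, 1}` such that `det A = 1` and the matrix of the entrywise cubes of `A` also has
determinant `1`; one can take `n = 4`. -/
theorem result : ∃ A : Matrix (Fin 4) (Fin 4) ℤ,
    (∀ i j, A i j ≠ -1 ∧ A i j ≠ 0 ∧ A i j ≠ 1) ∧ A.det = 1 ∧ (A.map (· ^ 3)).det = 1 := by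
  refine ⟨!![2, 3, 2, 3; 4, -3, -4, -2; 3, 4, 4, 3; 6, -5, -3, -6], ?_, ?_, ?_⟩
  · intro i j
    fin_cases i <;> fin_cases j <;> simp
  · decide +kernel
  · decide +kernel

end Pool.Agent.Results.MP_52c232_nt.OrderFour
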